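import Pool.Agent.Y17.X.Sel
import Pool.Agent.Y17.X.Joint
import Pool.Agent.Y17.X.CntN
import Pool.Agent.Y687.JQ.Fin
import Pool.Agent.Y948.CQ.C2
import Pool.Agent.V11280.SL.Loc

/-!
# The rank and the rank of the Selmer group of the 2-isogeny for the twists of `X_0(14)`

`E^D : y² = x³ + 13 D x² + 128 D² x` is the quadratic twist by `D` of the curve `X_0(14)`, which has no
complex multiplication and exactly one rational point of order two.  The class `Adm` consists of the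
squarefree integers `D`, positive or negative, `1` modulo `4`, squares modulo `7`, prime to `3`, whose
prime divisors split completely in `ℚ(i, √2, √-7)` or are inert in `ℚ(√2)` and in `ℚ(√-7)`.

The 2-Selmer rank `s` of `E^D`, obtained by descent via the 2-isogeny, is `0` for a proportion of
exactly `c = ∏_{i ≥ 0} (1 - 2^{-(2 i + 1)}) = 0.419...` of the positive `D` of the class and of exactly
`c` of the negative ones, and then the rank is `r = 0` also; so `r ≡ s` modulo `2` for a proportion of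
at least `c` of them.  More generally, for any finite set `F` of elements of the class, the `D` such that
`r = s = 0` holds at the same time for all the twists by the squarefree parts of the numbers `m D`,
`m ∈ F`, have the proportion exactly `c ^ #F`.
-/

set_option autoImplicit false

open Finset Filter

namespace Pool.Agent.Results.MP_e2b281_nt.SelmerRankZeroProportion

open Pool.Agent
open Pool.Agent.Y687.MQ (AdmD matD of_admD SP IP disc matD_eq matT_iff det_ind)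

/-- The quartic `N² = b₁ M⁴ + a M² e² + (b / b₁) e⁴` has a solution in `K` with `(M, e) ≠ (0, 0)`. -/
def Solvable (K : Type) [Field K] (a b b₁ : ℤ) : Prop :=
  ∃ N M e : K, (M ≠ 0 ∨ e ≠ 0) ∧
    N ^ 2 = (b₁ : K) * M ^ 4 + (a : K) * M ^ 2 * e ^ 2 + ((b / b₁ : ℤ) : K) * e ^ 4

/-- The squarefree divisors `b₁` of `b`, positive or negative, for which the quartic is everywhere
locally solvable. -/
def classes (a b : ℤ) : Set ℤ :=
  {b₁ | Squarefree b₁ ∧ b₁ ∣ b ∧ Solvable ℝ a b b₁ ∧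
    ∀ (p : ℕ) [Fact p.Prime], Solvable ℚ_[p] a b b₁}

/-- The logarithm to the base `2` of the number of these classes. -/
noncomputable def exponent (a b : ℤ) : ℕ := Nat.log 2 (classes a b).ncard

/-- The 2-Selmer rank `s = f₁ + f₂ - 2` of `y² = x³ + a x² + b x`. -/
noncomputable def selmerRank (a b : ℤ) : ℤ :=
  (exponent a b : ℤ) + exponent (-2 * a) (a ^ 2 - 4 * b) - 2

/-- The curve `y² = x³ + a x² + b x`. -/
def curve (a b : ℤ) : WeierstrassCurve ℚ :=
  { a₁ := 0, a₂ := (a : ℚ), a₃ := 0, a₄ := (b : ℚ), a₆ := 0 }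

/-- The rank `r` of the group of rational points of `y² = x³ + a x² + b x`. -/
noncomputable def rank (a b : ℤ) : ℕ := Module.finrank ℤ (curve a b).toAffine.Point

/-- primes which split completely in `ℚ(i, √2, √-7)` -/
def Split (p : ℕ) : Prop := p.Prime ∧ p % 8 = 1 ∧ (p % 7 = 1 ∨ p % 7 = 2 ∨ p % 7 = 4)

/-- primes inert in `ℚ(√2)` and in `ℚ(√-7)` -/
def Inert (q : ℕ) : Prop :=
  q.Prime ∧ (q % 8 = 3 ∨ q % 8 = 5) ∧ (q % 7 = 3 ∨ q % 7 = 5 ∨ q % 7 = 6)

/-- the class of discriminants -/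
def Adm (D : ℤ) : Prop := Squarefree D ∧ D % 4 = 1 ∧ (D % 7 = 1 ∨ D % 7 = 2 ∨ D % 7 = 4) ∧
  ∀ p : ℕ, p.Prime → (p : ℤ) ∣ D → p ≠ 3 ∧ (Split p ∨ Inert p)

/-- the number of the `D` in the class with `s D > 0`, `|D| ≤ X` and the property `Q` -/
noncomputable def count (s : ℤ) (Q : ℤ → Prop) (X : ℕ) : ℕ :=
  Nat.card {D : ℤ // |D| ≤ X ∧ Adm D ∧ 0 < s * D ∧ Q D}

/-- the squarefree part of the product of two squarefree integers -/
def part (m D : ℤ) : ℤ := m * D / (Int.gcd m D : ℤ) ^ 2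

/-- `r = s = 0` for the twist by `D` -/
def Zero (D : ℤ) : Prop :=
  rank (13 * D) (128 * D ^ 2) = 0 ∧ selmerRank (13 * D) (128 * D ^ 2) = 0

/-- `r ≡ s` modulo `2` for the twist by `D` -/
def SameParity (D : ℤ) : Prop :=
  Even ((rank (13 * D) (128 * D ^ 2) : ℤ) - selmerRank (13 * D) (128 * D ^ 2))

/-! ### local solutions -/

lemma cast_quot {K : Type} [Field K] [CharZero K] {b z : ℤ} (hz : z ≠ 0) (h : z ∣ b) :
    ((b / z : ℤ) : K) = (b : K) / (z : K) :=
  Int.cast_div h (by exact_mod_cast hz)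

lemma pc_of {a b z : ℤ} (hb : b ≠ 0) (hab : a ^ 2 - 4 * b ≠ 0) (hz : z ≠ 0) (hdvd : z ∣ b)
    (p : ℕ) [Fact p.Prime] (h : Solvable ℚ_[p] a b z) : Pool.Agent.Y700.PC a b p z := by
  obtain ⟨N, M, e, hMe, h⟩ := h
  rw [cast_quot hz hdvd] at h
  exact Pool.Agent.V11280.SL.point (K := ℚ_[p]) (by exact_mod_cast hz) (by exact_mod_cast hb)
    (by exact_mod_cast hab) hMe h

lemma of_loc {K : Type} [Field K] [CharZero K] {a b d : ℤ} (hd0 : d ≠ 0)
    (hd : d ∣ a ^ 2 - 4 * b) (h : Pool.Agent.Z702.LocI K a b d) :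
    Solvable K (-2 * a) (a ^ 2 - 4 * b) d := by
  obtain ⟨X, Y, r, hX, h1, h2⟩ := h
  obtain ⟨N, M, e, hMe, h3⟩ := Pool.Agent.V11280.SL.solution (K := K) (a := -2 * (a : K))
    (b := (a : K) ^ 2 - 4 * b) (d := d) hX (by rw [h1]; ring) h2
  refine ⟨N, M, e, hMe, ?_⟩
  rw [cast_quot hd0 hd, h3]
  push_cast
  ring

lemma loc_seven {K : Type} [Field K] [CharZero K] {M d : ℤ} (hM : M ≠ 0) (hd0 : d ≠ 0)
    (h : Pool.Agent.Z702.LocI K (13 * M) (128 * M ^ 2) d) :
    Pool.Agent.Z702.LocI K (13 * M) (128 * M ^ 2) (-7 * d) := by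
  obtain ⟨X, Y, r, hX, h1, h2⟩ := h
  have hMK : (M : K) ≠ 0 := by exact_mod_cast hM
  have hdK : (d : K) ≠ 0 := by exact_mod_cast hd0
  obtain ⟨X', Y', r', g1, g2, g3⟩ := Pool.Agent.V11280.SL.translate (K := K)
    (a := -26 * (M : K)) (b := -343 * (M : K) ^ 2) (d := d) (d' := -7 * d)
    (s := 7 * M / d) hX (mul_ne_zero (by norm_num) (pow_ne_zero 2 hMK)) (by
      rw [h1]; push_cast; ring) h2 (by field_simp; norm_num)
  refine ⟨X', Y', r', g1, ?_, ?_⟩
  · rw [g2]; push_cast; ring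
  · rw [g3]; push_cast; ring

/-! ### the trivial classes -/

lemma sol_one (K : Type) [Field K] (a b : ℤ) : Solvable K a b 1 :=
  ⟨1, 1, 0, Or.inl one_ne_zero, by simp⟩

lemma one_mem (a b : ℤ) : (1 : ℤ) ∈ classes a b :=
  ⟨squarefree_one, one_dvd b, sol_one ℝ a b, fun p _ => sol_one ℚ_[p] a b⟩

lemma sol_two (K : Type) [Field K] (M : ℤ) : Solvable K (13 * M) (128 * M ^ 2) 2 := by
  refine ⟨8 * M, 0, 1, Or.inr one_ne_zero, ?_⟩
  have e : (128 * M ^ 2 : ℤ) / 2 = 64 * M ^ 2 := by omega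
  rw [e]
  push_cast
  ring

lemma two_mem (M : ℤ) : (2 : ℤ) ∈ classes (13 * M) (128 * M ^ 2) :=
  ⟨Int.prime_two.squarefree, ⟨64 * M ^ 2, by ring⟩, sol_two ℝ M, fun p _ => sol_two ℚ_[p] M⟩

lemma sol_seven (K : Type) [Field K] (M : ℤ) :
    Solvable K (-2 * (13 * M)) ((13 * M) ^ 2 - 4 * (128 * M ^ 2)) (-7) := by
  refine ⟨7 * M, 0, 1, Or.inr one_ne_zero, ?_⟩
  have e : ((13 * M) ^ 2 - 4 * (128 * M ^ 2) : ℤ) / (-7) = 49 * M ^ 2 := by
    have e1 : ((13 * M) ^ 2 - 4 * (128 * M ^ 2) : ℤ) = 49 * M ^ 2 * (-7) := by ring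
    rw [e1]
    exact Int.mul_ediv_cancel _ (by norm_num)
  rw [e]
  push_cast
  ring

lemma sqf_seven : Squarefree (-7 : ℤ) := by
  rw [← Int.squarefree_natAbs]
  exact (by norm_num : Nat.Prime 7).squarefree

lemma seven_mem (M : ℤ) :
    (-7 : ℤ) ∈ classes (-2 * (13 * M)) ((13 * M) ^ 2 - 4 * (128 * M ^ 2)) :=
  ⟨sqf_seven, ⟨49 * M ^ 2, by ring⟩, sol_seven ℝ M, fun p _ => sol_seven ℚ_[p] M⟩

lemma pos_of {M z : ℤ} (hM : M ≠ 0) (hz : z ≠ 0) (hd : z ∣ 128 * M ^ 2)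
    (h : Solvable ℝ (13 * M) (128 * M ^ 2) z) : 0 < z := by
  by_contra hneg
  have hz0 : z < 0 := lt_of_le_of_ne (not_lt.1 hneg) hz
  obtain ⟨N, m, e, hme, h⟩ := h
  rw [cast_quot hz hd] at h
  have hzR : (z : ℝ) < 0 := by exact_mod_cast hz0
  have hMR : (M : ℝ) ≠ 0 := by exact_mod_cast hM
  have h1 : 4 * (z : ℝ) * N ^ 2 = (2 * z * m ^ 2 + 13 * M * e ^ 2) ^ 2 + 343 * (M * e ^ 2) ^ 2 := by
    rw [h]
    have hz' : (z : ℝ) ≠ 0 := hzR.ne
    push_cast
    field_simp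
    ring
  have h2 : 4 * (z : ℝ) * N ^ 2 ≤ 0 := by nlinarith [sq_nonneg N]
  have h3 : (M : ℝ) * e ^ 2 = 0 := by
    have : ((M : ℝ) * e ^ 2) ^ 2 ≤ 0 := by
      nlinarith [sq_nonneg (2 * (z : ℝ) * m ^ 2 + 13 * M * e ^ 2)]
    exact pow_eq_zero_iff (two_ne_zero) |>.1 (le_antisymm this (sq_nonneg _))
  have he : e = 0 := by
    rcases mul_eq_zero.1 h3 with h4 | h4
    · exact absurd h4 hMR
    · exact pow_eq_zero_iff (two_ne_zero) |>.1 h4
  have h5 : (2 * (z : ℝ) * m ^ 2) ^ 2 ≤ 0 := by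
    have h6 : (2 * (z : ℝ) * m ^ 2 + 13 * M * e ^ 2) ^ 2 ≤ 0 := by
      nlinarith [sq_nonneg ((M : ℝ) * e ^ 2)]
    rw [he] at h6
    simpa using h6
  have h6 : 2 * (z : ℝ) * m ^ 2 = 0 :=
    pow_eq_zero_iff (two_ne_zero) |>.1 (le_antisymm h5 (sq_nonneg _))
  have hm : m = 0 := by
    rcases mul_eq_zero.1 h6 with h7 | h7
    · exact absurd h7 (mul_ne_zero two_ne_zero hzR.ne)
    · exact pow_eq_zero_iff (two_ne_zero) |>.1 h7
  rcases hme with h7 | h7
  · exact h7 hm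
  · exact h7 he

lemma b_ne {M : ℤ} (hM : M ≠ 0) : (128 * M ^ 2 : ℤ) ≠ 0 :=
  mul_ne_zero (by norm_num) (pow_ne_zero 2 hM)

lemma dual_eq (M : ℤ) : ((13 * M) ^ 2 - 4 * (128 * M ^ 2) : ℤ) = -343 * M ^ 2 := by ring

lemma dual_ne {M : ℤ} (hM : M ≠ 0) : ((13 * M) ^ 2 - 4 * (128 * M ^ 2) : ℤ) ≠ 0 := by
  rw [dual_eq]
  exact mul_ne_zero (by norm_num) (pow_ne_zero 2 hM)

/-! ### the Selmer rank in the nonsingular case -/

lemma classes_one {M : ℤ} (hM : M ≠ 0)
    (h : ∀ z : ℤ, Squarefree z → 0 < z → (∀ (l : ℕ) [Fact l.Prime],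
      Pool.Agent.Y700.PC (13 * M) (128 * M ^ 2) l z) → z = 1 ∨ z = 2) :
    classes (13 * M) (128 * M ^ 2) = {1, 2} := by
  apply Set.Subset.antisymm
  · rintro z ⟨h1, h2, h3, h4⟩
    have hz := h1.ne_zero
    have h5 := h z h1 (pos_of hM hz h2 h3) fun l _ =>
      pc_of (b_ne hM) (dual_ne hM) hz h2 l (h4 l)
    simpa using h5
  · rintro z (rfl | rfl)
    · exact one_mem _ _
    · exact two_mem M

lemma classes_two {M : ℤ} (hM : M ≠ 0)
    (h : ∀ z : ℤ, Squarefree z → (∀ (l : ℕ) [Fact l.Prime],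
      Pool.Agent.Y700.PC (-26 * M) (-343 * M ^ 2) l z) → z = 1 ∨ z = -7) :
    classes (-2 * (13 * M)) ((13 * M) ^ 2 - 4 * (128 * M ^ 2)) = {1, -7} := by
  apply Set.Subset.antisymm
  · rintro z ⟨h1, h2, h3, h4⟩
    have hz := h1.ne_zero
    have h5 := h z h1 fun l _ => by
      have h6 := pc_of (a := -2 * (13 * M)) (dual_ne hM) (by
        have e : ((-2 * (13 * M)) ^ 2 - 4 * ((13 * M) ^ 2 - 4 * (128 * M ^ 2)) : ℤ) =
          2048 * M ^ 2 := by ring
        rw [e]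
        exact mul_ne_zero (by norm_num) (pow_ne_zero 2 hM)) hz h2 l (h4 l)
      have e1 : (-2 : ℤ) * (13 * M) = -26 * M := by ring
      rw [e1, dual_eq] at h6
      exact h6
    simpa using h5
  · rintro z (rfl | rfl)
    · exact one_mem _ _
    · exact seven_mem M

lemma log_two : Nat.log 2 2 = 1 := by
  rw [Nat.log_eq_iff (Or.inl one_ne_zero)]
  norm_num

theorem selmer_zero {M : ℤ} (hM : M ≠ 0)
    (h : ∀ z : ℤ, Squarefree z → 0 < z → (∀ (l : ℕ) [Fact l.Prime],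
      Pool.Agent.Y700.PC (13 * M) (128 * M ^ 2) l z) → z = 1 ∨ z = 2)
    (h' : ∀ z : ℤ, Squarefree z → (∀ (l : ℕ) [Fact l.Prime],
      Pool.Agent.Y700.PC (-26 * M) (-343 * M ^ 2) l z) → z = 1 ∨ z = -7) :
    selmerRank (13 * M) (128 * M ^ 2) = 0 := by
  unfold selmerRank exponent
  rw [classes_one hM h, classes_two hM h', Set.ncard_pair (by norm_num),
    Set.ncard_pair (by norm_num), log_two]
  norm_num

/-! ### the Selmer rank in the singular case -/

lemma classes_finite {a b : ℤ} (hb : b ≠ 0) : (classes a b).Finite := by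
  refine (Set.finite_Icc (-|b|) |b|).subset ?_
  rintro z ⟨-, h2, -, -⟩
  have h3 : |z| ≤ |b| := Int.le_of_dvd (abs_pos.2 hb) ((abs_dvd_abs z b).2 h2)
  exact abs_le.1 h3

theorem selmer_pos {M d : ℤ} (hM : M ≠ 0) (hd1 : 1 < d) (hds : Squarefree d) (hdM : d ∣ M)
    (h7 : ¬ (7 : ℤ) ∣ d)
    (h1 : ∀ (l : ℕ) [Fact l.Prime], Pool.Agent.Z702.LocI ℚ_[l] (13 * M) (128 * M ^ 2) d)
    (h2 : Pool.Agent.Z702.LocI ℝ (13 * M) (128 * M ^ 2) d) :
    selmerRank (13 * M) (128 * M ^ 2) ≠ 0 := by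
  have hd0 : d ≠ 0 := by omega
  have hdvd : d ∣ (13 * M) ^ 2 - 4 * (128 * M ^ 2) := by
    rw [dual_eq]
    exact Dvd.dvd.mul_left (dvd_pow hdM two_ne_zero) _
  have hsq : Squarefree (-7 * d) := by
    have hcop : IsCoprime (-7 : ℤ) d := by
      rw [neg_eq_neg_one_mul, mul_comm]
      have h3 : IsCoprime (7 : ℤ) d :=
        (Prime.coprime_iff_not_dvd (by norm_num : Prime (7 : ℤ))).2 h7
      have := h3.neg_left
      simpa using this
    rw [squarefree_mul_iff]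
    exact ⟨hcop.isRelPrime, sqf_seven, hds⟩
  have hdvd7 : -7 * d ∣ (13 * M) ^ 2 - 4 * (128 * M ^ 2) := by
    rw [dual_eq]
    obtain ⟨k, hk⟩ := hdM
    exact ⟨49 * M * k, by rw [hk]; ring⟩
  have hd7 : (-7 * d : ℤ) ≠ 0 := by omega
  have hmem : d ∈ classes (-2 * (13 * M)) ((13 * M) ^ 2 - 4 * (128 * M ^ 2)) :=
    ⟨hds, hdvd, of_loc hd0 hdvd h2, fun l _ => of_loc hd0 hdvd (h1 l)⟩
  have hmem7 : -7 * d ∈ classes (-2 * (13 * M)) ((13 * M) ^ 2 - 4 * (128 * M ^ 2)) :=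
    ⟨hsq, hdvd7, of_loc hd7 hdvd7 (loc_seven hM hd0 h2),
      fun l _ => of_loc hd7 hdvd7 (loc_seven hM hd0 (h1 l))⟩
  have hfin := classes_finite (a := -2 * (13 * M)) (dual_ne hM)
  have hfin1 := classes_finite (a := 13 * M) (b_ne hM)
  have hc : 4 ≤ (classes (-2 * (13 * M)) ((13 * M) ^ 2 - 4 * (128 * M ^ 2))).ncard := by
    have hsub : (({1, -7, d, -7 * d} : Finset ℤ) : Set ℤ) ⊆
        classes (-2 * (13 * M)) ((13 * M) ^ 2 - 4 * (128 * M ^ 2)) := by
      intro z hz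
      simp only [Finset.coe_insert, Finset.coe_singleton, Set.mem_insert_iff,
        Set.mem_singleton_iff] at hz
      rcases hz with rfl | rfl | rfl | rfl
      · exact one_mem _ _
      · exact seven_mem M
      · exact hmem
      · exact hmem7
    have hcard : ({1, -7, d, -7 * d} : Finset ℤ).card = 4 := by
      rw [Finset.card_insert_of_notMem, Finset.card_insert_of_notMem,
        Finset.card_insert_of_notMem, Finset.card_singleton]
      · simp only [Finset.mem_singleton]; omega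
      · simp only [Finset.mem_insert, Finset.mem_singleton]; omega
      · simp only [Finset.mem_insert, Finset.mem_singleton]; omega
    have h3 := Set.ncard_le_ncard hsub hfin
    rwa [Set.ncard_coe_finset, hcard] at h3
  have hc1 : 2 ≤ (classes (13 * M) (128 * M ^ 2)).ncard := by
    have hsub : (({1, 2} : Finset ℤ) : Set ℤ) ⊆ classes (13 * M) (128 * M ^ 2) := by
      intro z hz
      simp only [Finset.coe_insert, Finset.coe_singleton, Set.mem_insert_iff,
        Set.mem_singleton_iff] at hz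
      rcases hz with rfl | rfl
      · exact one_mem _ _
      · exact two_mem M
    have h3 := Set.ncard_le_ncard hsub hfin1
    rwa [Set.ncard_coe_finset, Finset.card_pair (by norm_num)] at h3
  have l1 : 1 ≤ exponent (13 * M) (128 * M ^ 2) := by
    unfold exponent
    calc 1 = Nat.log 2 2 := log_two.symm
      _ ≤ _ := Nat.log_mono_right hc1
  have l2 : 2 ≤ exponent (-2 * (13 * M)) ((13 * M) ^ 2 - 4 * (128 * M ^ 2)) := by
    unfold exponent
    calc 2 = Nat.log 2 4 := by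
          have : (4 : ℕ) = 2 ^ 2 := by norm_num
          rw [this, Nat.log_pow (by norm_num)]
      _ ≤ _ := Nat.log_mono_right hc
  unfold selmerRank
  omega

/-! ### the criterion -/

lemma rank_zero {D : ℤ} (h : Finite (curve (13 * D) (128 * D ^ 2)).toAffine.Point) :
    rank (13 * D) (128 * D ^ 2) = 0 := by
  have h3 : Module.Finite ℤ (curve (13 * D) (128 * D ^ 2)).toAffine.Point :=
    Module.Finite.of_finite
  show Module.finrank ℤ (curve (13 * D) (128 * D ^ 2)).toAffine.Point = 0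
  rw [Module.finrank_eq_zero_iff_isTorsion]
  intro x
  exact ⟨⟨(Nat.card (curve (13 * D) (128 * D ^ 2)).toAffine.Point : ℤ),
    mem_nonZeroDivisors_of_ne_zero (by exact_mod_cast Nat.card_pos.ne')⟩, by
    show (Nat.card (curve (13 * D) (128 * D ^ 2)).toAffine.Point : ℤ) • x = 0
    rw [natCast_zsmul]
    exact card_nsmul_eq_zero'⟩

theorem zero_iff {D : ℤ} (h : AdmD D) : Zero D ↔ (matD D).det ≠ 0 := by
  classical
  obtain ⟨hP, hT, hC, hD⟩ := of_admD h
  have hP' : ∀ p ∈ SP D, Y17.N.Sp p := hP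
  have hm : Y687.DD (IP D) = (Z700.pr (IP D) : ℤ) ∨ Y687.DD (IP D) = -(Z700.pr (IP D) : ℤ) := by
    rw [Z705.DD_eq]
    rcases Nat.even_or_odd ((IP D).filter fun q => ¬ q % 4 = 1).card with he | ho
    · left; rw [he.neg_one_pow, one_mul]
    · right; rw [ho.neg_one_pow, neg_one_mul]
  have hdet : (matD D).det ≠ 0 ↔ Odd (Z700.Yd Z700.lres (Y687.N.xrZ (Y687.DD (IP D))) (SP D)) := by
    rw [matD_eq, matT_iff hP hT, det_ind hP hT hm]
  have hDD : (Z700.pr (SP D) : ℤ) * Y687.DD (IP D) = D := hD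
  have hcnd := Z705.cnd hP' hT
  have hD0 : D ≠ 0 := h.1.ne_zero
  have h1 := Z704.equiv Z702.f_COC Z702.f_LOT Z702.f_COB Z702.f_TOR Z702.f_LQ Z702.f_LG
      Z702.f_LP Z702.f_LIN Z702.f_TRN Z705.f_SELA Z705.f_SELB hcnd
  obtain ⟨t1, -, -⟩ := Z702.trn_WM Z702.f_TRN (M := D) (by rw [← hDD]; exact hcnd.M4)
  rw [hDD] at h1
  rw [hdet]
  constructor
  · rintro ⟨-, hs⟩
    by_contra hY
    obtain ⟨J, hJP, hJne, k1, k2⟩ := Z702.f_LIN Z700.lres (Y687.N.xrZ (Y687.DD (IP D))) (SP D) hY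
    have hm0 : Y687.DD (IP D) ≠ 0 := by have := hcnd.m4; intro h0; rw [h0] at this; omega
    obtain ⟨l1, l2⟩ := Z702.locZ Z702.f_LQ Z702.f_LG Z702.f_LP hm0 hcnd.sp
      (fun q hq hqm => ⟨(hcnd.two q hq hqm).1, (hcnd.two q hq hqm).2.1,
        (hcnd.two q hq hqm).2.2.1⟩) hJP k1 k2
    rw [hDD] at l1 l2
    have hJp : ∀ p ∈ J, p.Prime := fun p hp => (hcnd.sp p (hJP hp)).1
    have hJdvd : ((Z700.pr J : ℕ) : ℤ) ∣ D := by
      rw [← hDD]
      refine Dvd.dvd.mul_right ?_ _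
      exact_mod_cast Finset.prod_dvd_prod_of_subset J (SP D) (fun p => p) hJP
    refine selmer_pos hD0 (d := ((Z700.pr J : ℕ) : ℤ)) ?_ (h.1.squarefree_of_dvd hJdvd) hJdvd ?_
      (fun l _ => l1 l) l2 hs
    · obtain ⟨p, hp⟩ := hJne
      have h3 : p ∣ Z700.pr J := Finset.dvd_prod_of_mem (fun p => p) hp
      have h4 : 0 < Z700.pr J := Z700.pr_pos hJp
      have h5 := Nat.le_of_dvd h4 h3
      have h6 := (hJp p hp).one_lt
      exact_mod_cast lt_of_lt_of_le h6 h5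
    · intro h7
      have h8 : (7 : ℤ) ∣ D := h7.trans hJdvd
      have h9 := h.2.2.1
      omega
  · intro hY
    refine ⟨rank_zero ?_, ?_⟩
    · exact t1.2 (h1.1 hY).1
    · refine selmer_zero hD0 ?_ ?_
      · have h3 := Z705.f_SELA (Y687.DD (IP D)) (SP D) (hcnd.hyp hY)
        rw [hDD] at h3
        exact fun z h4 h5 h6 => h3 z h4 h5 fun l _ => h6 l
      · have h3 := Z705.f_SELB (Y687.DD (IP D)) (SP D) (hcnd.hyp hY)
        rw [hDD] at h3
        exact fun z h4 h6 => h3 z h4 fun l _ => h6 l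

/-- **Main theorem.** Let `c = ∏_{i ≥ 0} (1 - 2^{-(2 i + 1)})`.
(1) For every finite set `F` of elements of the class, the `D` of the class, of a given sign and ordered
by absolute value, such that `r = s = 0` for the twists by the squarefree parts of all the `m D`,
`m ∈ F`, have the proportion exactly `c ^ #F`.
(2) In particular `r = s = 0` for the twist by `D` itself with the proportion exactly `c`, and
`r ≡ s` modulo `2` with a lower proportion of at least `c`. -/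
theorem result : ∃ c : ℝ, 0.4194 < c ∧ c < 0.4195 ∧
    Tendsto (fun n : ℕ => ∏ i ∈ range n, (1 - (1 / 2 : ℝ) ^ (2 * i + 1))) atTop (nhds c) ∧
    ∀ s : ℤ, (s = 1 ∨ s = -1) →
      (∀ F : Finset ℤ, (∀ m ∈ F, Adm m) →
        Tendsto (fun X : ℕ => (count s (fun D => ∀ m ∈ F, Zero (part m D)) X : ℝ) /
          (count s (fun _ => True) X : ℝ)) atTop (nhds (c ^ F.card))) ∧
      Tendsto (fun X : ℕ => (count s Zero X : ℝ) / (count s (fun _ => True) X : ℝ))
        atTop (nhds c) ∧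
      ∀ ε : ℝ, 0 < ε → ∃ X₀ : ℕ, ∀ X : ℕ, X₀ ≤ X →
        0 < count s (fun _ => True) X ∧
        (c - ε) * (count s (fun _ => True) X : ℝ) ≤ (count s SameParity X : ℝ) := by
  classical
  have hA : ∀ D : ℤ, Adm D ↔ Y687.MQ.AdmD D := fun D => Iff.rfl
  obtain ⟨hC, -, -, hc1, hc2⟩ := Y948.CQ.t_C2
  have hcount : ∀ (s : ℤ) (Q : ℤ → Prop) (X : ℕ), count s Q X =
      Y17.X.count (fun D => AdmD D ∧ 0 < s * D ∧ Q D) X := fun s Q X => rfl
  have htrue : ∀ (s : ℤ) (X : ℕ), count s (fun _ => True) X =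
      Y17.X.count (fun D => AdmD D ∧ 0 < s * D) X := by
    intro s X
    rw [hcount]
    congr 1
    funext D
    simp only [and_true]
  refine ⟨Y703.CQ.c2, hc1, hc2, ?_, ?_⟩
  · rw [tendsto_iff_norm_sub_tendsto_zero]
    refine squeeze_zero (fun n => norm_nonneg _) (fun n => ?_)
      (tendsto_pow_atTop_nhds_zero_of_lt_one (by norm_num : (0 : ℝ) ≤ 1 / 4)
        (by norm_num : (1 / 4 : ℝ) < 1))
    rw [Real.norm_eq_abs]
    exact hC n
  intro s hs
  have key1 : ∀ F : Finset ℤ, (∀ m ∈ F, Adm m) →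
      Tendsto (fun X : ℕ => (count s (fun D => ∀ m ∈ F, Zero (part m D)) X : ℝ) /
        (count s (fun _ => True) X : ℝ)) atTop (nhds (Y703.CQ.c2 ^ F.card)) := by
    intro F hF
    have h := Y17.X.joint_of Y687.JQ.t_JDEN hs F hF Zero (fun D hD _ => zero_iff hD)
    refine h.congr fun X => ?_
    rw [hcount, htrue]
    rfl
  have key2 : Tendsto (fun X : ℕ => (count s Zero X : ℝ) / (count s (fun _ => True) X : ℝ))
      atTop (nhds Y703.CQ.c2) := by
    have h := Y17.X.prop_of hs Zero (fun D hD _ => zero_iff hD)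
    refine h.congr fun X => ?_
    rw [hcount, htrue]
  refine ⟨key1, key2, fun ε hε => ?_⟩
  have hpos : ∀ᶠ X : ℕ in atTop, Y703.CQ.c2 - ε < (count s Zero X : ℝ) /
      (count s (fun _ => True) X : ℝ) := key2.eventually (lt_mem_nhds (by linarith))
  have hpos2 : ∀ᶠ X : ℕ in atTop, 0 < (count s Zero X : ℝ) /
      (count s (fun _ => True) X : ℝ) := key2.eventually (lt_mem_nhds (by linarith))
  obtain ⟨X₀, hX₀⟩ := eventually_atTop.1 (hpos.and hpos2)
  refine ⟨X₀, fun X hX => ?_⟩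
  obtain ⟨h1, h2⟩ := hX₀ X hX
  have hB : (0 : ℝ) < (count s (fun _ => True) X : ℝ) := by
    rcases (Nat.cast_nonneg (α := ℝ) (count s (fun _ => True) X)).eq_or_lt with h3 | h3
    · rw [← h3, div_zero] at h2
      exact absurd h2 (lt_irrefl _)
    · exact h3
  refine ⟨by exact_mod_cast hB, ?_⟩
  have h3 : (count s Zero X : ℝ) ≤ (count s SameParity X : ℝ) := by
    have h4 : count s Zero X ≤ count s SameParity X := by
      have hfin : Finite {D : ℤ // |D| ≤ X ∧ Adm D ∧ 0 < s * D ∧ SameParity D} :=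
        ((Set.finite_Icc (-(X : ℤ)) X).subset fun D hD => abs_le.1 hD.1).to_subtype
      refine Nat.card_le_card_of_injective
        (fun D => ⟨D.1, D.2.1, D.2.2.1, D.2.2.2.1, by
          obtain ⟨h5, h6⟩ := D.2.2.2.2
          unfold SameParity
          rw [h5, h6]
          simp⟩) ?_
      intro D D' h
      exact Subtype.ext (congrArg (fun t => t.1) h)
    exact_mod_cast h4
  rw [lt_div_iff₀ hB] at h1
  linarith

end Pool.Agent.Results.MP_e2b281_nt.SelmerRankZeroProportion
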